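import Pool.Agent.H182R2.CB.TMain
import Pool.Agent.H182R2.CB.SP

/-!
# MP_7f333f_an: displayable groups on combinatorial Banach spaces

Let `𝓕` be a regular family containing the singletons and `X` the combinatorial space of `𝓕`
(`IsCombinatorialSpace 𝓕 X e`: `X` is a Banach space, `e` its unit vector basis).

1. Let `G` be a closed subgroup of `SYM(ℕ)` with a central element `σ`, `σ² = 1`, and an open
   subgroup `K` of finite index in `G` with `σ ∉ K`.  Then `G` is topologically displayable on `X`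
   (`TopDisplayable`: isomorphic and homeomorphic to the isometry group, with the strong operator
   topology, of some equivalent norm).
2. For every closed subgroup `H` of `SYM(ℕ)` the group `{-1,1} × H` is displayable on `X`.
-/

namespace Pool.Agent.Results.MP_7f333f_an.DisplayedGroups

open Pool.Agent.H182R2.CB

theorem result {𝓕 : Set (Finset ℕ)} (h𝓕 : IsRegularFamily 𝓕) (hsing : ∀ n, {n} ∈ 𝓕)
    {X : Type*} [NormedAddCommGroup X] [NormedSpace ℝ X] [CompleteSpace X] {e : ℕ → X}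
    (hX : IsCombinatorialSpace 𝓕 X e) :
    (∀ G K : Subgroup (Equiv.Perm ℕ), IsClosedPerm G → K ≤ G →
      (∃ s : Finset ℕ, ∀ g ∈ G, (∀ i ∈ s, g i = i) → g ∈ K) → K.relIndex G ≠ 0 →
      (∃ σ : G, σ * σ = 1 ∧ (∀ g : G, g * σ = σ * g) ∧ (σ : Equiv.Perm ℕ) ∉ K) →
      TopDisplayable X G) ∧
    (∀ H : Subgroup (Equiv.Perm ℕ), IsClosedPerm H → Displayable X (ℤˣ × H)) := by
  have key : ∀ G K : Subgroup (Equiv.Perm ℕ), IsClosedPerm G → K ≤ G →
      (∃ s : Finset ℕ, ∀ g ∈ G, (∀ i ∈ s, g i = i) → g ∈ K) → K.relIndex G ≠ 0 →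
      (∃ σ : G, σ * σ = 1 ∧ (∀ g : G, g * σ = σ * g) ∧ (σ : Equiv.Perm ℕ) ∉ K) →
      TopDisplayable X G := by
    rintro G K hG hKG hopen hfin ⟨σ, hσ2, hσc, hσK⟩
    exact TFIN_main h𝓕 hsing hX G K hG hKG hopen hfin σ hσ2 hσc hσK
  refine ⟨key, fun H hH => ?_⟩
  obtain ⟨G, K, σ, hG, hKG, hopen, hfin, hσ2, hσc, hσK, ⟨f⟩⟩ := SP_split H hH
  obtain ⟨N, hN, f', -⟩ := key G K hG hKG hopen hfin ⟨σ, hσ2, hσc, hσK⟩
  exact displayable_congr f ⟨N, hN, ⟨f'⟩⟩

end Pool.Agent.Results.MP_7f333f_an.DisplayedGroups
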