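import Pool.Agent.H182R2.CM.GMain

/-!
# MP_7f333f_an: a closed group that is not displayable on combinatorial spaces

`signedPerm` is the centralizer in `SYM(ℕ)` of the fixed-point-free involution `2i ↔ 2i+1`, i.e.
the group of signed permutations.  It is a closed subgroup of `SYM(ℕ)` with a central involution
(so it is displayable on `c₀` and on `ℓ_p`, by Ferenczi and Rosendal), but it is not displayable
on the combinatorial space of any essentially multiplicative regular family: the Schreier space,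
the spaces of the families `S₁[𝓖]` (`𝓖` regular) and of their limits (hence all the higher
Schreier spaces), and the spaces of the regular families with unbounded cardinalities all of whose
members split into `n` sets `E` with `|E| ≤ φ(min E)`.  The same holds for every group all of
whose central involutions are images of the sign change under homomorphisms from `signedPerm`.
The key fact: every bounded representation of `SYM(ℕ)` on such a space has a nonzero fixed vector.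
-/

namespace Pool.Agent.Results.MP_7f333f_an.SignedPermutations

open Pool.Agent.H182R2.CB Pool.Agent.H182R2.CG

theorem result :
    -- the group of signed permutations is closed and has a central involution
    (IsClosedPerm signedPerm ∧ nuPerm ∈ signedPerm ∧ nuPerm * nuPerm = 1 ∧ nuPerm ≠ 1 ∧
      ∀ g ∈ signedPerm, g * nuPerm = nuPerm * g) ∧
    -- the families covered
    (IsRegularFamily schreier ∧ (∀ n, ({n} : Finset ℕ) ∈ schreier) ∧ EssMult schreier) ∧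
    (∀ 𝓖 : Set (Finset ℕ), IsRegularFamily 𝓖 → (∀ n, ({n} : Finset ℕ) ∈ 𝓖) →
      IsRegularFamily (sch 𝓖) ∧ (∀ n, ({n} : Finset ℕ) ∈ sch 𝓖) ∧ EssMult (sch 𝓖)) ∧
    (∀ 𝓖 : ℕ → Set (Finset ℕ), (∀ n, IsRegularFamily (𝓖 n)) →
      (∀ n p, ({p} : Finset ℕ) ∈ 𝓖 n) →
      (∀ b : ℕ, ∃ n' N : ℕ, ∀ n ≤ b, ∀ F ∈ sch (𝓖 n), (∀ p ∈ F, N ≤ p) → F ∈ 𝓖 n') →
      IsRegularFamily (limFam 𝓖) ∧ (∀ p, ({p} : Finset ℕ) ∈ limFam 𝓖) ∧ EssMult (limFam 𝓖)) ∧
    (∀ 𝓕 : Set (Finset ℕ), IsRegularFamily 𝓕 → (∀ n, ({n} : Finset ℕ) ∈ 𝓕) →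
      (∀ m : ℕ, ∃ F ∈ 𝓕, m ≤ F.card) → ∀ (φ : ℕ → ℕ) (n : ℕ),
      (∀ F ∈ 𝓕, ∃ G : ℕ → Finset ℕ, (∀ i < n, ∀ p ∈ G i, (G i).card ≤ φ p) ∧
        F = (Finset.range n).biUnion G) → EssMult 𝓕) ∧
    -- the theorem
    (∀ 𝓕 : Set (Finset ℕ), IsRegularFamily 𝓕 → EssMult 𝓕 →
      ∀ (X : Type*) [NormedAddCommGroup X] [NormedSpace ℝ X] [CompleteSpace X] (e : ℕ → X),
      IsCombinatorialSpace 𝓕 X e →
        ¬ Displayable X signedPerm ∧
        (∀ (Γ : Type*) [Group Γ],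
          (∀ c : Γ, (∀ g, c * g = g * c) → c * c = 1 → c ≠ 1 →
            ∃ κ : signedPerm →* Γ, κ ⟨nuPerm, nuPerm_mem⟩ = c) →
          ¬ Displayable X Γ) ∧
        (∀ (ρ : Equiv.Perm ℕ →* (X ≃ₗ[ℝ] X)) (K : ℝ), (∀ g x, ‖ρ g x‖ ≤ K * ‖x‖) →
          ∃ y : X, y ≠ 0 ∧ ∀ g, ρ g y = y)) := by
  refine ⟨F1_closed, ⟨S1_regular.1, S1_regular.2,
    EssMult.of_mult S1_regular.1 S1_regular.2 GM_schreier⟩, ?_, ?_, ?_, ?_⟩
  · intro 𝓖 h hs
    obtain ⟨h1, h2⟩ := GT1_regular h hs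
    exact ⟨h1, h2, EssMult.of_mult h1 h2 (GT2_mult h hs)⟩
  · intro 𝓖 h hs hE
    obtain ⟨h1, h2⟩ := GT5_regular h hs
    exact ⟨h1, h2, EssMult.of_mult h1 h2 (GT5_mult h hs hE)⟩
  · intro 𝓕 h hs hU φ n hφ
    exact GM_split h hs hU φ n hφ
  · intro 𝓕 h he X _ _ _ e hX
    refine ⟨?_, fun Γ _ hκ => GM_gen h he hX hκ, fun ρ K hK => GM_fixed h he hX ρ K hK⟩
    refine GM_gen h he hX ?_
    intro c hc _ hc1
    refine ⟨MonoidHom.id _, ?_⟩
    obtain ⟨ι, τ, -, -, h3, h4⟩ := F2_struct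
    have hτ : τ Set.univ = ⟨nuPerm, nuPerm_mem⟩ := Subtype.ext h3
    rw [(h4 c hc).resolve_left hc1, hτ]
    rfl

end Pool.Agent.Results.MP_7f333f_an.SignedPermutations
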